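import Mathlib
import Pool.Agent.Lib.MP_56a425_co.Sizes

/-!
Weight certificates: sets of digits whose sums mod `m` carry weights which vanish on constant
progressions and are positive on all nonconstant progressions of length `K`.
-/

set_option autoImplicit false

namespace Pool.Agent.Lib.MP_56a425_coT

open Finset

/-- A weight certificate for the digits `X x < m / 2` (`x : Fin k`) against progressions of length
`K` modulo `m`: the weights `w j` (`j < K`) of each digit add up to `0`, and for digits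
`x j, y j` whose sums `X (x j) + X (y j)` form a progression mod `m` the total weight is
nonnegative, and positive if the progression is not constant mod `m`. -/
structure IsCert (K m k : ℕ) (X : Fin k → ℕ) (w : ℕ → Fin k → ℤ) : Prop where
  inj : Function.Injective X
  half : ∀ x, 2 * X x < m
  zero : ∀ x, ∑ j ∈ range K, w j x = 0
  nonneg : ∀ (x y : ℕ → Fin k) (s : ℕ), (∀ j < K, X (x j) + X (y j) = s) →
    0 ≤ ∑ j ∈ range K, (w j (x j) + w j (y j))
  pos : ∀ (a d : ℤ) (x y : ℕ → Fin k), ¬ (m : ℤ) ∣ d →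
    (∀ j < K, (m : ℤ) ∣ a + j * d - (X (x j) + X (y j))) →
    0 < ∑ j ∈ range K, (w j (x j) + w j (y j))

variable {K m k : ℕ} {X : Fin k → ℕ} {w : ℕ → Fin k → ℤ}

/-- The words of length `n` with prescribed total weights. -/
def cls (w : ℕ → Fin k → ℤ) (n : ℕ) (C : Fin K → ℤ) : Finset (Fin n → Fin k) :=
  univ.filter (fun v => (fun j : Fin K => ∑ i, w j (v i)) = C)

theorem mem_cls {n : ℕ} {C : Fin K → ℤ} {v : Fin n → Fin k} (hv : v ∈ cls w n C) (j : Fin K) :
    ∑ i, w j (v i) = C j := by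
  unfold cls at hv
  rw [mem_filter] at hv
  exact congrFun hv.2 j

/-- In one class the sums have no nonconstant progression of length `K` mod `m`. -/
theorem classA (h : IsCert K m k X w) {n : ℕ} (C : Fin K → ℤ) (v u : ℕ → Fin n → Fin k)
    (a d : Fin n → ℤ) (hK : 0 < K) (hv : ∀ j < K, v j ∈ cls w n C) (hu : ∀ j < K, u j ∈ cls w n C)
    (hc : ∀ j < K, ∀ i, (m : ℤ) ∣ a i + j * d i - (X (v j i) + X (u j i))) :
    (∀ i, (m : ℤ) ∣ d i) ∧
      ∀ j < K, ∀ i, X (v j i) + X (u j i) = X (v 0 i) + X (u 0 i) := by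
  have hconst : ∀ i, (m : ℤ) ∣ d i → ∀ j < K, X (v j i) + X (u j i) = X (v 0 i) + X (u 0 i) := by
    intro i hd j hj
    have h1 := hc j hj i
    have h2 := hc 0 hK i
    have h3 : (m : ℤ) ∣ ((X (v j i) + X (u j i) : ℕ) : ℤ) - ((X (v 0 i) + X (u 0 i) : ℕ) : ℤ) := by
      have h4 := dvd_sub h2 h1
      have h5 : (m : ℤ) ∣ j * d i := Dvd.dvd.mul_left hd _
      have h6 := dvd_add h4 h5
      have h7 : a i + ((0 : ℕ) : ℤ) * d i - (X (v 0 i) + X (u 0 i)) -
          (a i + j * d i - (X (v j i) + X (u j i))) + j * d i =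
          ((X (v j i) + X (u j i) : ℕ) : ℤ) - ((X (v 0 i) + X (u 0 i) : ℕ) : ℤ) := by
        push_cast
        ring
      rw [h7] at h6
      exact h6
    obtain ⟨t, ht⟩ := h3
    have b1 := h.half (v j i)
    have b2 := h.half (u j i)
    have b3 := h.half (v 0 i)
    have b4 := h.half (u 0 i)
    have ht0 : t = 0 := by
      by_contra hne
      rcases lt_or_gt_of_ne hne with h5 | h5
      · have : (m : ℤ) * t ≤ m * (-1) := mul_le_mul_of_nonneg_left (by omega) (by omega)
        omega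
      · have : (m : ℤ) * 1 ≤ m * t := mul_le_mul_of_nonneg_left (by omega) (by omega)
        omega
    rw [ht0] at ht
    omega
  have hT : ∀ i, 0 ≤ ∑ j ∈ range K, (w j (v j i) + w j (u j i)) := by
    intro i
    by_cases hd : (m : ℤ) ∣ d i
    · exact h.nonneg (fun j => v j i) (fun j => u j i) _ (fun j hj => hconst i hd j hj)
    · exact (h.pos (a i) (d i) (fun j => v j i) (fun j => u j i) hd (fun j hj => hc j hj i)).le
  have hC : ∑ j : Fin K, C j = 0 := by
    have h1 : ∑ j : Fin K, C j = ∑ j : Fin K, ∑ i, w j (v 0 i) :=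
      Finset.sum_congr rfl (fun j _ => (mem_cls (hv 0 hK) j).symm)
    rw [h1, Finset.sum_comm]
    refine Finset.sum_eq_zero (fun i _ => ?_)
    have h2 := h.zero (v 0 i)
    rw [Finset.sum_range] at h2
    exact h2
  have htot : ∑ i, ∑ j ∈ range K, (w j (v j i) + w j (u j i)) = 0 := by
    rw [Finset.sum_comm, Finset.sum_range]
    have h1 : ∀ j : Fin K, ∑ i, (w j (v j i) + w j (u j i)) = C j + C j := by
      intro j
      rw [Finset.sum_add_distrib, mem_cls (hv j j.2) j, mem_cls (hu j j.2) j]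
    rw [Finset.sum_congr rfl (fun j _ => h1 j), Finset.sum_add_distrib, hC]
    rfl
  have hdv : ∀ i, (m : ℤ) ∣ d i := by
    intro i
    by_contra hcon
    have h1 := h.pos (a i) (d i) (fun j => v j i) (fun j => u j i) hcon (fun j hj => hc j hj i)
    have h2 := (Finset.sum_eq_zero_iff_of_nonneg (fun i _ => hT i)).1 htot i (Finset.mem_univ i)
    omega
  exact ⟨hdv, fun j hj i => hconst i (hdv i) j hj⟩

/-- Pigeonhole: some class is large. -/
theorem exists_large_cls (K : ℕ) (w : ℕ → Fin k → ℤ) :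
    ∃ G : ℕ, ∀ n : ℕ, ∃ C : Fin K → ℤ, k ^ n ≤ (cls w n C).card * (2 * (n * G) + 1) ^ K := by
  classical
  refine ⟨∑ j : Fin K, ∑ x, (w j x).natAbs, ?_⟩
  intro n
  set G := ∑ j : Fin K, ∑ x, (w j x).natAbs with hG
  have bx : ∀ (j : Fin K) (x : Fin k), |w j x| ≤ (G : ℤ) := by
    intro j x
    have h1 : (w j x).natAbs ≤ ∑ y, (w j y).natAbs :=
      Finset.single_le_sum (f := fun y => (w j y).natAbs) (fun _ _ => Nat.zero_le _)
        (Finset.mem_univ x)
    have h2 : ∑ y, (w j y).natAbs ≤ G :=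
      Finset.single_le_sum (f := fun j : Fin K => ∑ y, (w j y).natAbs) (fun _ _ => Nat.zero_le _)
        (Finset.mem_univ j)
    have h3 : |w j x| = ((w j x).natAbs : ℤ) := (Int.natCast_natAbs _).symm
    rw [h3]
    exact_mod_cast h1.trans h2
  have sumb : ∀ (j : Fin K) (v : Fin n → Fin k), |∑ i, w j (v i)| ≤ ((n * G : ℕ) : ℤ) := by
    intro j v
    calc |∑ i, w j (v i)| ≤ ∑ i, |w j (v i)| := Finset.abs_sum_le_sum_abs _ _
      _ ≤ ∑ _i : Fin n, (G : ℤ) := Finset.sum_le_sum fun i _ => bx j _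
      _ = ((n * G : ℕ) : ℤ) := by simp
  set I : Finset (Fin K → ℤ) :=
    Fintype.piFinset (fun _ => Finset.Icc (-((n * G : ℕ) : ℤ)) ((n * G : ℕ) : ℤ)) with hI
  have hcard : I.card = (2 * (n * G) + 1) ^ K := by
    rw [hI, Fintype.card_piFinset_const, Int.card_Icc]
    have : (((n * G : ℕ) : ℤ) + 1 - -((n * G : ℕ) : ℤ)).toNat = 2 * (n * G) + 1 := by omega
    rw [this]
  have hmaps : ∀ v ∈ (Finset.univ : Finset (Fin n → Fin k)),
      (fun j : Fin K => ∑ i, w j (v i)) ∈ I := by
    intro v _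
    rw [hI, Fintype.mem_piFinset]
    intro j
    rw [Finset.mem_Icc]
    exact abs_le.1 (sumb j v)
  by_contra hcon
  push Not at hcon
  have hne : I.Nonempty := by
    rw [← Finset.card_pos, hcard]
    positivity
  have hsum := Finset.card_eq_sum_card_fiberwise hmaps
  have hlt : ∑ C ∈ I, (cls w n C).card * (2 * (n * G) + 1) ^ K < ∑ _C ∈ I, k ^ n :=
    Finset.sum_lt_sum_of_nonempty hne fun C _ => hcon C
  rw [Finset.sum_const, hcard, ← Finset.sum_mul, smul_eq_mul] at hlt
  have h3 : ∑ C ∈ I, (cls w n C).card = k ^ n := by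
    have : (Finset.univ : Finset (Fin n → Fin k)).card = k ^ n := by simp
    rw [← this, hsum]
    rfl
  rw [h3, mul_comm] at hlt
  exact lt_irrefl _ hlt

end Pool.Agent.Lib.MP_56a425_coT
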