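import Mathlib
import Pool.Agent.Lib.MP_56a425_coT.Base

/-!
Towers: integer vectors all of whose base `m` digit vectors are in one class.
-/

set_option autoImplicit false

namespace Pool.Agent.Lib.MP_56a425_coT

open Finset Pool.Agent.Lib.MP_56a425_co
open scoped Pointwise

variable {K m k : ℕ} {X : Fin k → ℕ} {w : ℕ → Fin k → ℤ} {n : ℕ}

/-- The integer vectors with `T` base `m` digits, all in the class `C`. -/
def tower (m : ℕ) (X : Fin k → ℕ) (w : ℕ → Fin k → ℤ) {n : ℕ} (C : Fin K → ℤ) :
    ℕ → Finset (Fin n → ℤ)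
  | 0 => {0}
  | T + 1 => ((cls w n C) ×ˢ (tower m X w C T)).image
      (fun p i => ((X (p.1 i) : ℕ) : ℤ) + m * p.2 i)

theorem tower_bound (h : IsCert K m k X w) (C : Fin K → ℤ) (T : ℕ) :
    ∀ p ∈ tower m X w (n := n) C T, ∀ i, 0 ≤ p i ∧ 2 * p i < (m : ℤ) ^ T := by
  induction T with
  | zero =>
    intro p hp i
    rw [tower, mem_singleton] at hp
    subst hp
    simp
  | succ T ih =>
    intro p hp i
    rw [tower, mem_image] at hp
    obtain ⟨⟨v, q⟩, hvq, rfl⟩ := hp
    rw [mem_product] at hvq
    have h1 := ih q hvq.2 i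
    have h2 := h.half (v i)
    have h3 : (0 : ℤ) ≤ m * q i := mul_nonneg (by positivity) h1.1
    refine ⟨?_, ?_⟩
    · show (0 : ℤ) ≤ ((X (v i) : ℕ) : ℤ) + m * q i
      positivity
    · show 2 * (((X (v i) : ℕ) : ℤ) + m * q i) < (m : ℤ) ^ (T + 1)
      have h4 : (m : ℤ) * (2 * q i + 1) ≤ m * (m : ℤ) ^ T :=
        mul_le_mul_of_nonneg_left (by omega) (by positivity)
      rw [pow_succ]
      have h5 : 2 * ((X (v i) : ℕ) : ℤ) < m := by exact_mod_cast h2
      nlinarith

theorem tower_card (h : IsCert K m k X w) (C : Fin K → ℤ) (T : ℕ) :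
    (tower m X w (n := n) C T).card = (cls w n C).card ^ T := by
  induction T with
  | zero => simp [tower]
  | succ T ih =>
    rw [tower, Finset.card_image_of_injOn, Finset.card_product, ih, pow_succ, mul_comm]
    intro p hp q hq hpq
    obtain ⟨v, p'⟩ := p
    obtain ⟨u, q'⟩ := q
    have key : ∀ i, v i = u i ∧ p' i = q' i := by
      intro i
      have h1 : ((X (v i) : ℕ) : ℤ) + m * p' i = ((X (u i) : ℕ) : ℤ) + m * q' i := congrFun hpq i
      have h2 := h.half (v i)
      have h3 := h.half (u i)
      have h4 : p' i = q' i := by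
        by_contra hne
        rcases lt_or_gt_of_ne hne with h5 | h5
        · have : (m : ℤ) * (p' i + 1) ≤ m * q' i :=
            mul_le_mul_of_nonneg_left (by omega) (by omega)
          nlinarith
        · have : (m : ℤ) * (q' i + 1) ≤ m * p' i :=
            mul_le_mul_of_nonneg_left (by omega) (by omega)
          nlinarith
      rw [h4] at h1
      refine ⟨h.inj ?_, h4⟩
      have h6 : ((X (v i) : ℕ) : ℤ) = ((X (u i) : ℕ) : ℤ) := by linarith
      exact_mod_cast h6
    exact Prod.ext (funext fun i => (key i).1) (funext fun i => (key i).2)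

/-- No nonconstant progression of length `K` in the sumset of a tower. -/
theorem tower_noAP (h : IsCert K m k X w) (hK : 2 ≤ K) (hm : 0 < m) (C : Fin K → ℤ) (T : ℕ) :
    ∀ (p q : ℕ → Fin n → ℤ) (a d : Fin n → ℤ),
      (∀ j < K, p j ∈ tower m X w C T) → (∀ j < K, q j ∈ tower m X w C T) →
      (∀ j < K, ∀ i, p j i + q j i = a i + j * d i) → ∀ i, d i = 0 := by
  induction T with
  | zero =>
    intro p q a d hp hq hpq i
    have hz : ∀ j < K, p j i + q j i = 0 := by
      intro j hj
      have h1 := hp j hj
      have h2 := hq j hj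
      rw [tower, mem_singleton] at h1 h2
      rw [h1, h2]
      simp
    have h0 := hpq 0 (by omega) i
    have h1 := hpq 1 (by omega) i
    have h2 := hz 0 (by omega)
    have h3 := hz 1 (by omega)
    push_cast at h0 h1
    linarith
  | succ T ih =>
    intro p q a d hp hq hpq
    have hdec : ∀ (p : ℕ → Fin n → ℤ), (∀ j < K, p j ∈ tower m X w C (T + 1)) →
        ∀ j, ∃ (v : Fin n → Fin k) (p' : Fin n → ℤ), j < K → v ∈ cls w n C ∧
          p' ∈ tower m X w C T ∧ ∀ i, p j i = ((X (v i) : ℕ) : ℤ) + m * p' i := by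
      intro p hp j
      by_cases hj : j < K
      · have h1 := hp j hj
        rw [tower, mem_image] at h1
        obtain ⟨⟨v, p'⟩, hvp, he⟩ := h1
        rw [mem_product] at hvp
        exact ⟨v, p', fun _ => ⟨hvp.1, hvp.2, fun i => (congrFun he i).symm⟩⟩
      · have h0 := hp 0 (by omega)
        rw [tower, mem_image] at h0
        obtain ⟨⟨v, p'⟩, -, -⟩ := h0
        exact ⟨v, p', fun hj' => absurd hj' hj⟩
    choose v p' hv using hdec p hp
    choose u q' hu using hdec q hq
    have hA := classA h C v u a d (by omega) (fun j hj => (hv j hj).1) (fun j hj => (hu j hj).1)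
      (by
        intro j hj i
        have h1 := (hv j hj).2.2 i
        have h2 := (hu j hj).2.2 i
        have h3 := hpq j hj i
        refine ⟨p' j i + q' j i, ?_⟩
        rw [h1, h2] at h3
        linear_combination -h3)
    have hd : ∀ i, ∃ e, d i = m * e := fun i => hA.1 i
    choose e he using hd
    have ha : ∀ i, ∃ c, a i = ((X (v 0 i) : ℕ) : ℤ) + ((X (u 0 i) : ℕ) : ℤ) + m * c := by
      intro i
      have h1 := (hv 0 (by omega)).2.2 i
      have h2 := (hu 0 (by omega)).2.2 i
      have h3 := hpq 0 (by omega) i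
      refine ⟨p' 0 i + q' 0 i, ?_⟩
      push_cast at h3
      rw [h1, h2] at h3
      linear_combination -h3
    choose c hc using ha
    have hmz : (m : ℤ) ≠ 0 := by omega
    have h4 := ih p' q' c e (fun j hj => (hv j hj).2.1) (fun j hj => (hu j hj).2.1) (by
      intro j hj i
      have h1 := (hv j hj).2.2 i
      have h2 := (hu j hj).2.2 i
      have h3 := hpq j hj i
      have h5 := hA.2 j hj i
      have h6 : ((X (v j i) : ℕ) : ℤ) + ((X (u j i) : ℕ) : ℤ) =
          ((X (v 0 i) : ℕ) : ℤ) + ((X (u 0 i) : ℕ) : ℤ) := by exact_mod_cast h5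
      rw [h1, h2, he i, hc i] at h3
      have h7 : (m : ℤ) * (p' j i + q' j i) = m * (c i + j * e i) := by
        linear_combination h3 - h6
      exact mul_left_cancel₀ hmz h7)
    intro i
    rw [he i, h4 i, mul_zero]

/-! ### From vectors to integers -/

/-- Base `B` value of a vector. -/
def val (B : ℤ) {n : ℕ} (z : Fin n → ℤ) : ℤ := ∑ i, z i * B ^ (i : ℕ)

theorem val_succ (B : ℤ) {n : ℕ} (z : Fin (n + 1) → ℤ) :
    val B z = z 0 + B * val B (fun i : Fin n => z i.succ) := by
  unfold val
  rw [Fin.sum_univ_succ, Finset.mul_sum]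
  congr 1
  · simp
  · refine Finset.sum_congr rfl (fun i _ => ?_)
    rw [Fin.val_succ, pow_succ]
    ring

theorem val_eq_zero (B : ℤ) {n : ℕ} (z : Fin n → ℤ) (hz : ∀ i, |z i| < B) (h : val B z = 0) :
    ∀ i, z i = 0 := by
  induction n with
  | zero => exact fun i => Fin.elim0 i
  | succ n ih =>
    rw [val_succ] at h
    have h0 := abs_lt.1 (hz 0)
    set t := val B (fun i : Fin n => z i.succ) with ht
    have ht0 : t = 0 := by
      by_contra hne
      rcases lt_or_gt_of_ne hne with h5 | h5
      · have : B * t ≤ B * (-1) := mul_le_mul_of_nonneg_left (by omega) (by omega)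
        omega
      · have : B * 1 ≤ B * t := mul_le_mul_of_nonneg_left (by omega) (by omega)
        omega
    have h1 := ih (fun i : Fin n => z i.succ) (fun i => hz i.succ) ht0
    rw [ht0, mul_zero, add_zero] at h
    intro i
    refine Fin.cases h (fun i => h1 i) i

theorem val_bound (B : ℤ) (hB : 1 ≤ B) {n : ℕ} (z : Fin n → ℤ) (hz : ∀ i, 0 ≤ z i ∧ z i < B) :
    0 ≤ val B z ∧ val B z < B ^ n := by
  induction n with
  | zero => simp [val]
  | succ n ih =>
    rw [val_succ]
    have h0 := hz 0
    have h1 := ih (fun i : Fin n => z i.succ) (fun i => hz i.succ)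
    set t := val B (fun i : Fin n => z i.succ) with ht
    have h2 : B * (t + 1) ≤ B * B ^ n := mul_le_mul_of_nonneg_left (by omega) (by omega)
    have h3 : 0 ≤ B * t := mul_nonneg (by omega) h1.1
    rw [pow_succ]
    constructor
    · omega
    · nlinarith

theorem val_sub (B : ℤ) {n : ℕ} (z y : Fin n → ℤ) :
    val B (fun i => z i - y i) = val B z - val B y := by
  unfold val
  rw [← Finset.sum_sub_distrib]
  exact Finset.sum_congr rfl (fun i _ => by ring)

/-- The integer set obtained from a tower. -/
theorem exists_set (h : IsCert K m k X w) (hK : 2 ≤ K) (hm : 0 < m) (C : Fin K → ℤ) (T n : ℕ) :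
    ∃ D : Finset ℤ, D ⊆ Finset.Ico 0 ((2 * (m : ℤ) ^ T) ^ n) ∧
      D.card = (cls w n C).card ^ T ∧ ¬ HasAP (D + D) K := by
  classical
  set B : ℤ := 2 * (m : ℤ) ^ T with hB
  have hmT : (1 : ℤ) ≤ (m : ℤ) ^ T := by
    have : 0 < m ^ T := by positivity
    exact_mod_cast this
  have hB1 : 1 ≤ B := by omega
  refine ⟨(tower m X w (n := n) C T).image (val B), ?_, ?_, ?_⟩
  · intro x hx
    rw [mem_image] at hx
    obtain ⟨p, hp, rfl⟩ := hx
    have hb := tower_bound h C T p hp
    have := val_bound B hB1 p (fun i => ⟨(hb i).1, by have := hb i; omega⟩)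
    rw [Finset.mem_Ico]
    exact this
  · rw [Finset.card_image_of_injOn, tower_card h]
    intro p hp q hq hpq
    have hb := tower_bound h C T p hp
    have hb' := tower_bound h C T q hq
    have h1 : val B (fun i => p i - q i) = 0 := by
      rw [val_sub]
      exact sub_eq_zero.2 hpq
    have h2 := val_eq_zero B (fun i => p i - q i) (fun i => by
      have e1 := hb i
      have e2 := hb' i
      rw [abs_lt]
      omega) h1
    funext i
    have := h2 i
    omega
  · rintro ⟨a, d, hd, had⟩
    have h1 : ∀ j : ℕ, ∃ p q : Fin n → ℤ, j < K → p ∈ tower m X w C T ∧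
        q ∈ tower m X w C T ∧ a + j * d = val B p + val B q := by
      intro j
      by_cases hj : j < K
      · have h2 := had j hj
        rw [Finset.mem_add] at h2
        obtain ⟨y, hy, z, hz, he⟩ := h2
        rw [mem_image] at hy hz
        obtain ⟨p, hp, rfl⟩ := hy
        obtain ⟨q, hq, rfl⟩ := hz
        exact ⟨p, q, fun _ => ⟨hp, hq, he.symm⟩⟩
      · exact ⟨0, 0, fun h => absurd h hj⟩
    choose p q hpq using h1
    have hbp : ∀ j < K, ∀ i, 0 ≤ p j i + q j i ∧ p j i + q j i < (m : ℤ) ^ T := by
      intro j hj i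
      obtain ⟨h2, h3, -⟩ := hpq j hj
      have e1 := tower_bound h C T _ h2 i
      have e2 := tower_bound h C T _ h3 i
      omega
    have hval : ∀ z y : Fin n → ℤ, val B (fun i => z i + y i) = val B z + val B y := by
      intro z y
      unfold val
      rw [← Finset.sum_add_distrib]
      exact Finset.sum_congr rfl (fun i _ => by ring)
    have hsd : ∀ j, j + 2 < K → ∀ i, (p j i + q j i) - 2 * (p (j + 1) i + q (j + 1) i) +
        (p (j + 2) i + q (j + 2) i) = 0 := by
      intro j hj
      have e0 := (hpq j (by omega)).2.2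
      have e1 := (hpq (j + 1) (by omega)).2.2
      have e2 := (hpq (j + 2) (by omega)).2.2
      have b0 := hbp j (by omega)
      have b1 := hbp (j + 1) (by omega)
      have b2 := hbp (j + 2) (by omega)
      refine val_eq_zero B (fun i => (p j i + q j i) - 2 * (p (j + 1) i + q (j + 1) i) +
        (p (j + 2) i + q (j + 2) i)) (fun i => ?_) ?_
      · have c0 := b0 i
        have c1 := b1 i
        have c2 := b2 i
        rw [abs_lt]
        omega
      · have e3 : val B (fun i => (p j i + q j i) - 2 * (p (j + 1) i + q (j + 1) i) +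
            (p (j + 2) i + q (j + 2) i)) =
            (val B (p j) + val B (q j)) - 2 * (val B (p (j + 1)) + val B (q (j + 1))) +
            (val B (p (j + 2)) + val B (q (j + 2))) := by
          unfold val
          rw [← Finset.sum_add_distrib, ← Finset.sum_add_distrib, ← Finset.sum_add_distrib,
            Finset.mul_sum, ← Finset.sum_sub_distrib, ← Finset.sum_add_distrib]
          exact Finset.sum_congr rfl (fun i _ => by ring)
        rw [e3]
        push_cast at e0 e1 e2
        linear_combination -e0 + 2 * e1 - e2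
    have haff : ∀ i, ∀ j, j < K → p j i + q j i =
        (p 0 i + q 0 i) + j * ((p 1 i + q 1 i) - (p 0 i + q 0 i)) := fun i =>
      affine_of_second_diff (fun j => p j i + q j i) K (fun j hj => hsd j hj i)
    have hz := tower_noAP h hK hm C T p q (fun i => p 0 i + q 0 i)
      (fun i => (p 1 i + q 1 i) - (p 0 i + q 0 i)) (fun j hj => (hpq j hj).1)
      (fun j hj => (hpq j hj).2.1) (fun j hj i => haff i j hj)
    have f0 := (hpq 0 (by omega)).2.2
    have f1 := (hpq 1 (by omega)).2.2
    have f2 : val B (p 1) + val B (q 1) = val B (p 0) + val B (q 0) := by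
      rw [← hval, ← hval]
      unfold val
      refine Finset.sum_congr rfl (fun i _ => ?_)
      have := hz i
      have e : p 1 i + q 1 i = p 0 i + q 0 i := by linarith
      simp only [e]
    push_cast at f0 f1
    rw [f2] at f1
    omega

end Pool.Agent.Lib.MP_56a425_coT
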