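import Mathlib
import Pool.Agent.Lib.MP_56a425_coT.Tower

/-!
Upper bounds for `ell θ` from weight certificates.
-/

set_option autoImplicit false

namespace Pool.Agent.Lib.MP_56a425_coT

open Finset Pool.Agent.Lib.MP_56a425_co
open scoped Pointwise

/-- One finite set `D ⊆ [0, b)` with more than `(4 b) ^ (1 - θ)` elements and no progression of
length `L` in `D + D` gives `ell θ ≤ L - 1`. -/
theorem ell_le_of_set (θ : ℝ) (h1 : θ < 1) (D : Finset ℤ) (b : ℕ) (L : ℕ)
    (hb : 1 ≤ b) (hL : 2 ≤ L) (hD : D ⊆ Finset.Ico 0 (b : ℤ))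
    (hcard : (1 - θ) * Real.log (4 * b) < Real.log D.card) (hAP : ¬ HasAP (D + D) L) :
    ell θ ≤ ((L - 1 : ℕ) : ℕ∞) := by
  set M : ℕ := 4 * b with hM
  have hM4 : 4 ≤ M := by omega
  have hMr : ((M : ℕ) : ℝ) = 4 * b := by rw [hM]; push_cast; ring
  have hMpos : (0 : ℝ) < M := by positivity
  have hlogM : 0 < Real.log M := Real.log_pos (by exact_mod_cast (by omega : 1 < M))
  rw [← hMr] at hcard
  have hgap : 0 < Real.log D.card - (1 - θ) * Real.log M := by linarith
  obtain ⟨n0, hn0⟩ := exists_nat_ge ((1 - θ) * Real.log M /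
    (Real.log D.card - (1 - θ) * Real.log M))
  rw [div_le_iff₀ hgap] at hn0
  unfold ell
  refine Filter.limsup_le_of_le (by isBoundedDefault) ?_
  rw [Filter.eventually_atTop]
  refine ⟨M ^ n0, fun N hN => ?_⟩
  have hN0 : N ≠ 0 := by
    intro h
    rw [h] at hN
    have : 0 < M ^ n0 := by positivity
    omega
  set n := Nat.log M N with hn
  have hn1 : M ^ n ≤ N := Nat.pow_log_le_self M hN0
  have hn2 : N < M ^ (n + 1) := Nat.lt_pow_succ_log_self (by omega) N
  have hn3 : n0 ≤ n := by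
    rw [hn]
    exact Nat.le_log_of_pow_le (by omega) hN
  obtain ⟨A, hA, hAc, hAAP⟩ := exists_digits D b L (by omega) hL hD hAP n
  have hDlog : 0 < Real.log D.card :=
    lt_of_le_of_lt (mul_nonneg (by linarith) hlogM.le) hcard
  have hDpos : (0 : ℝ) < D.card := by
    have h0 : (0 : ℝ) ≤ D.card := Nat.cast_nonneg _
    rcases h0.lt_or_eq with h2 | h2
    · exact h2
    · rw [← h2, Real.log_zero] at hDlog
      exact absurd hDlog (lt_irrefl 0)
  have hNr : (0 : ℝ) < N := by exact_mod_cast Nat.pos_of_ne_zero hN0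
  have hlogN : Real.log N ≤ (n + 1) * Real.log M := by
    have h2 : Real.log N ≤ Real.log ((M : ℝ) ^ (n + 1)) :=
      Real.log_le_log hNr (by exact_mod_cast hn2.le)
    rw [Real.log_pow] at h2
    push_cast at h2
    exact h2
  have hmain : (N : ℝ) ^ (1 - θ) ≤ (D.card : ℝ) ^ n := by
    rw [← Real.log_le_log_iff (Real.rpow_pos_of_pos hNr _) (by positivity),
      Real.log_rpow hNr, Real.log_pow]
    have h2 : (1 - θ) * Real.log N ≤ (1 - θ) * ((n + 1) * Real.log M) :=
      mul_le_mul_of_nonneg_left hlogN (by linarith)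
    have h3 : (n0 : ℝ) * (Real.log D.card - (1 - θ) * Real.log M) ≤
        n * (Real.log D.card - (1 - θ) * Real.log M) :=
      mul_le_mul_of_nonneg_right (by exact_mod_cast hn3) hgap.le
    linarith
  have hfl : ⌊(N : ℝ) ^ (1 - θ)⌋₊ ≤ A.card := by
    rw [hAc]
    have : ⌊(N : ℝ) ^ (1 - θ)⌋₊ ≤ ⌊((D.card ^ n : ℕ) : ℝ)⌋₊ := by
      apply Nat.floor_le_floor
      push_cast
      exact hmain
    rwa [Nat.floor_natCast] at this
  obtain ⟨A', hA', hA'c⟩ := Finset.exists_subset_card_eq hfl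
  have hmem : A'.image (fun x => x + 1) ∈ {A : Finset ℤ | A ⊆ Finset.Icc 1 (N : ℤ) ∧
      A.card = ⌊(N : ℝ) ^ (1 - θ)⌋₊} := by
    refine ⟨?_, ?_⟩
    · intro x hx
      rw [Finset.mem_image] at hx
      obtain ⟨y, hy, rfl⟩ := hx
      have h2 := Finset.mem_Ico.mp (hA (hA' hy))
      have h3 : ((M : ℕ) : ℤ) ^ n ≤ N := by exact_mod_cast hn1
      have h4 : ((M : ℕ) : ℤ) = 4 * (b : ℤ) := by rw [hM]; push_cast; ring
      rw [h4] at h3
      rw [Finset.mem_Icc]
      omega
    · rw [Finset.card_image_of_injective _ (fun x y h => by simpa using h), hA'c]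
  refine le_trans (iInf₂_le _ hmem) ?_
  have h5 : ¬ HasAP (A'.image (fun x => x + 1) + A'.image (fun x => x + 1)) L := fun h =>
    hAAP (hasAP_mono (Finset.add_subset_add hA' hA') (hasAP_shift h))
  have h6 := (lp_lt_iff _ _).2 h5
  have h7 : lp (A'.image (fun x => x + 1) + A'.image (fun x => x + 1)) ≤ L - 1 := by omega
  exact_mod_cast h7

/-- Exponential growth beats a polynomial. -/
theorem exists_pow_gt (q : ℝ) (hq : 1 < q) (G K : ℕ) :
    ∃ n : ℕ, ((2 * (n * G) + 1 : ℕ) : ℝ) ^ K < q ^ n := by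
  have h := tendsto_pow_const_div_const_pow_of_one_lt K hq
  have hpos : (0 : ℝ) < 1 / (2 * G + 1) ^ K := by positivity
  have h1 := (h.eventually (gt_mem_nhds hpos)).and (Filter.eventually_ge_atTop 1)
  obtain ⟨n, hn, hn1⟩ := h1.exists
  refine ⟨n, ?_⟩
  have hqn : 0 < q ^ n := by positivity
  rw [div_lt_div_iff₀ hqn (by positivity), one_mul] at hn
  have hn1' : (1 : ℝ) ≤ n := by exact_mod_cast hn1
  calc ((2 * (n * G) + 1 : ℕ) : ℝ) ^ K = (2 * (n * G) + 1) ^ K := by push_cast; ring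
    _ ≤ ((n : ℝ) * (2 * G + 1)) ^ K := by
        apply pow_le_pow_left₀ (by positivity)
        have : (0 : ℝ) ≤ G := by positivity
        nlinarith
    _ = (n : ℝ) ^ K * (2 * G + 1) ^ K := by rw [mul_pow]
    _ < q ^ n := hn

/-- A weight certificate with `k` digits mod `m` gives `ell θ ≤ K - 1` for all
`θ > 1 - log k / log m`. -/
theorem ell_le_of_cert {K m k : ℕ} {X : Fin k → ℕ} {w : ℕ → Fin k → ℤ} (h : IsCert K m k X w)
    (hK : 2 ≤ K) (θ : ℝ) (h0 : 1 - Real.log k / Real.log m < θ) (h1 : θ < 1) :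
    ell θ ≤ ((K - 1 : ℕ) : ℕ∞) := by
  -- numbers
  have hk0 : 0 < Real.log k / Real.log m := by linarith
  have hlogk0 : 0 ≤ Real.log k := Real.log_natCast_nonneg k
  have hlogm0 : 0 ≤ Real.log m := Real.log_natCast_nonneg m
  have hlogm : 0 < Real.log m := by
    rcases hlogm0.lt_or_eq with h2 | h2
    · exact h2
    · rw [← h2, div_zero] at hk0
      exact absurd hk0 (lt_irrefl 0)
  have hlogk : 0 < Real.log k := by
    rcases hlogk0.lt_or_eq with h2 | h2
    · exact h2
    · rw [← h2, zero_div] at hk0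
      exact absurd hk0 (lt_irrefl 0)
  have hm : 0 < m := by
    rcases Nat.eq_zero_or_pos m with h2 | h2
    · rw [h2] at hlogm
      simp at hlogm
    · exact h2
  have hkpos : 0 < k := by
    rcases Nat.eq_zero_or_pos k with h2 | h2
    · rw [h2] at hlogk
      simp at hlogk
    · exact h2
  have hmr : (0 : ℝ) < m := by exact_mod_cast hm
  have hkr : (0 : ℝ) < k := by exact_mod_cast hkpos
  have hγ : (1 - θ) * Real.log m < Real.log k := by
    have h2 : 1 - θ < Real.log k / Real.log m := by linarith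
    rwa [lt_div_iff₀ hlogm] at h2
  set γ := 1 - θ with hγdef
  have hγ0 : 0 < γ := by linarith
  -- a large class
  obtain ⟨G, hG⟩ := exists_large_cls K w
  have hbase : 0 < (m : ℝ) ^ γ := Real.rpow_pos_of_pos hmr γ
  have hq : 1 < (k : ℝ) / (m : ℝ) ^ γ := by
    rw [one_lt_div hbase, ← Real.log_lt_log_iff hbase hkr, Real.log_rpow hmr]
    exact hγ
  obtain ⟨n, hn⟩ := exists_pow_gt _ hq G K
  obtain ⟨C, hC⟩ := hG n
  set a := (cls w n C).card with ha
  have hlarge : ((m : ℝ) ^ γ) ^ n < a := by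
    have h2 : ((k : ℝ) ^ n) ≤ a * ((2 * (n * G) + 1 : ℕ) : ℝ) ^ K := by exact_mod_cast hC
    have h3 : ((2 * (n * G) + 1 : ℕ) : ℝ) ^ K * ((m : ℝ) ^ γ) ^ n < (k : ℝ) ^ n := by
      rw [div_pow] at hn
      rwa [lt_div_iff₀ (by positivity)] at hn
    have h4 : (0 : ℝ) < ((2 * (n * G) + 1 : ℕ) : ℝ) ^ K := by positivity
    have h5 := h3.trans_le h2
    rw [mul_comm (a : ℝ)] at h5
    exact lt_of_mul_lt_mul_left h5 h4.le
  have hapos : (0 : ℝ) < a := lt_trans (by positivity) hlarge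
  have hloga : n * (γ * Real.log m) < Real.log a := by
    have h2 := Real.log_lt_log (by positivity) hlarge
    rwa [Real.log_pow, Real.log_rpow hmr] at h2
  have hgap : 0 < Real.log a - n * (γ * Real.log m) := by linarith
  obtain ⟨T, hT⟩ := exists_nat_gt (γ * (Real.log 4 + n * Real.log 2) /
    (Real.log a - n * (γ * Real.log m)))
  rw [div_lt_iff₀ hgap] at hT
  obtain ⟨D, hD, hDc, hDAP⟩ := exists_set h hK hm C T n
  refine ell_le_of_set θ h1 D ((2 * m ^ T) ^ n) K ?_ hK ?_ ?_ hDAP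
  · exact Nat.one_le_iff_ne_zero.2 (by positivity)
  · push_cast
    exact hD
  · rw [hDc]
    push_cast
    rw [Real.log_pow, Real.log_mul (by norm_num) (by positivity), Real.log_pow,
      Real.log_mul (by norm_num) (by positivity), Real.log_pow]
    have h2 : γ * (Real.log 4 + n * (Real.log 2 + T * Real.log m)) =
        γ * (Real.log 4 + n * Real.log 2) + T * (n * (γ * Real.log m)) := by ring
    rw [h2]
    linarith

end Pool.Agent.Lib.MP_56a425_coT
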