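import Mathlib
import Pool.Agent.Lib.MP_56a425_coT.Growth

/-!
A finite check of weight certificates given by tables.
-/

set_option autoImplicit false

namespace Pool.Agent.Lib.MP_56a425_coT

open Finset

/-- Walk along `t, t + e, t + 2 e, …` mod `m`, adding the table entries, as long as we stay in the
set given by `S`. -/
def go (S : List Bool) (m e : ℕ) : List (List ℤ) → ℕ → ℤ → Bool
  | [], _, acc => decide (0 < acc)
  | r :: rs, t, acc => !(S.getD t false) || go S m e rs ((t + e) % m) (acc + r.getD t 0)

theorem go_spec (S : List Bool) (m e : ℕ) (rows : List (List ℤ)) :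
    ∀ (t : ℕ) (acc : ℤ), go S m e rows t acc = true → t < m →
      (∀ j < rows.length, S.getD ((t + j * e) % m) false = true) →
      0 < acc + ∑ j ∈ range rows.length, (rows.getD j []).getD ((t + j * e) % m) 0 := by
  induction rows with
  | nil =>
    intro t acc h _ _
    rw [go, decide_eq_true_eq] at h
    simpa using h
  | cons r rs ih =>
    intro t acc h ht hS
    rw [go, Bool.or_eq_true] at h
    have h0 := hS 0 (by simp)
    rw [zero_mul, add_zero, Nat.mod_eq_of_lt ht] at h0
    rw [h0] at h
    have h1 : go S m e rs ((t + e) % m) (acc + r.getD t 0) = true := by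
      rcases h with h | h
      · exact absurd h (by simp)
      · exact h
    have hm : 0 < m := by omega
    have hmod : ∀ j : ℕ, ((t + e) % m + j * e) % m = (t + (j + 1) * e) % m := by
      intro j
      rw [Nat.mod_add_mod]
      congr 1
      ring
    have h2 := ih ((t + e) % m) (acc + r.getD t 0) h1 (Nat.mod_lt _ hm) (by
      intro j hj
      rw [hmod]
      exact hS (j + 1) (by simpa using hj))
    rw [List.length_cons, Finset.sum_range_succ']
    have h3 : ∀ j ∈ range rs.length,
        ((r :: rs).getD (j + 1) []).getD ((t + (j + 1) * e) % m) 0 =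
        (rs.getD j []).getD (((t + e) % m + j * e) % m) 0 := by
      intro j _
      rw [hmod, List.getD_cons_succ]
    rw [Finset.sum_congr rfl h3, List.getD_cons_zero, zero_mul, add_zero, Nat.mod_eq_of_lt ht]
    linarith

/-- The whole check. -/
def check (K m k : ℕ) (X : List ℕ) (wt Wt : List (List ℤ)) (S : List Bool) : Bool :=
  decide (Wt.length = K) &&
  ((List.range k).all fun x => decide (2 * X.getD x 0 < m)) &&
  ((List.range k).all fun x => (List.range k).all fun y =>
    decide (x = y) || !decide (X.getD x 0 = X.getD y 0)) &&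
  ((List.range k).all fun x => decide (((List.range K).map fun j => (wt.getD j []).getD x 0).sum
    = 0)) &&
  ((List.range k).all fun x => (List.range k).all fun y =>
    S.getD (X.getD x 0 + X.getD y 0) false) &&
  ((List.range K).all fun j => (List.range k).all fun x => (List.range k).all fun y =>
    decide ((Wt.getD j []).getD (X.getD x 0 + X.getD y 0) 0 =
      (wt.getD j []).getD x 0 + (wt.getD j []).getD y 0)) &&
  ((List.range m).all fun s => (List.range m).all fun e => decide (e = 0) || go S m e Wt s 0)

theorem list_sum_range (K : ℕ) (f : ℕ → ℤ) :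
    ((List.range K).map f).sum = ∑ j ∈ range K, f j := by
  induction K with
  | zero => simp
  | succ K ih =>
    rw [List.range_succ, List.map_append, List.sum_append, ih, Finset.sum_range_succ]
    simp

theorem isCert_of_check (K m k : ℕ) (X : List ℕ) (wt Wt : List (List ℤ)) (S : List Bool)
    (hK : 0 < K) (h : check K m k X wt Wt S = true) :
    IsCert K m k (fun x : Fin k => X.getD x 0) (fun j (x : Fin k) => (wt.getD j []).getD x 0) := by
  unfold check at h
  simp only [Bool.and_eq_true, List.all_eq_true, List.mem_range, decide_eq_true_eq,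
    Bool.or_eq_true, Bool.not_eq_true', decide_eq_false_iff_not] at h
  obtain ⟨⟨⟨⟨⟨⟨hlen, hhalf⟩, hinj⟩, hzero⟩, hS⟩, hW⟩, hgo⟩ := h
  have hz : ∀ x : Fin k, ∑ j ∈ range K, (wt.getD j []).getD x 0 = 0 := by
    intro x
    have h1 := hzero x x.2
    rw [list_sum_range] at h1
    exact h1
  refine ⟨?_, fun x => hhalf x x.2, hz, ?_, ?_⟩
  · intro x y hxy
    rcases hinj x x.2 y y.2 with h1 | h1
    · exact Fin.ext h1
    · exact absurd hxy h1
  · intro x y s hs
    have h1 : ∀ j ∈ range K, ((wt.getD j []).getD (x j) 0 + (wt.getD j []).getD (y j) 0) =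
        (wt.getD j []).getD (x 0) 0 + (wt.getD j []).getD (y 0) 0 := by
      intro j hj
      have hj' := Finset.mem_range.1 hj
      rw [← hW j hj' (x j) (x j).2 (y j) (y j).2, ← hW j hj' (x 0) (x 0).2 (y 0) (y 0).2]
      have e1 : X.getD (x j) 0 + X.getD (y j) 0 = s := hs j hj'
      have e2 : X.getD (x 0) 0 + X.getD (y 0) 0 = s := hs 0 hK
      rw [e1, e2]
    rw [Finset.sum_congr rfl h1, Finset.sum_add_distrib, hz, hz]
    simp
  · intro a d x y hd hc
    have hm : 0 < m := by
      have := hhalf (x 0) (x 0).2
      omega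
    have hmz : (0 : ℤ) < m := by exact_mod_cast hm
    obtain ⟨s, hs⟩ : ∃ s : ℕ, (s : ℤ) = a % m :=
      ⟨(a % m).toNat, Int.toNat_of_nonneg (Int.emod_nonneg _ hmz.ne')⟩
    obtain ⟨e, he⟩ : ∃ e : ℕ, (e : ℤ) = d % m :=
      ⟨(d % m).toNat, Int.toNat_of_nonneg (Int.emod_nonneg _ hmz.ne')⟩
    have hsm : s < m := by
      have := Int.emod_lt_of_pos a hmz
      rw [← hs] at this
      exact_mod_cast this
    have hem : e < m := by
      have := Int.emod_lt_of_pos d hmz
      rw [← he] at this
      exact_mod_cast this
    have he0 : e ≠ 0 := by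
      intro h0
      rw [h0] at he
      exact hd (Int.dvd_of_emod_eq_zero (by rw [← he]; rfl))
    have hsum : ∀ j < K, (s + j * e) % m = X.getD (x j) 0 + X.getD (y j) 0 := by
      intro j hj
      have h1 := hc j hj
      have b1 := hhalf (x j) (x j).2
      have b2 := hhalf (y j) (y j).2
      have h2 : (((s + j * e : ℕ) : ℤ)) ≡ ((X.getD (x j) 0 + X.getD (y j) 0 : ℕ) : ℤ) [ZMOD m] := by
        push_cast
        rw [hs, he]
        have h3 : (a % m + j * (d % m)) ≡ a + j * d [ZMOD m] :=
          Int.ModEq.add (Int.mod_modEq a m) (Int.ModEq.mul_left _ (Int.mod_modEq d m))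
        refine h3.trans ?_
        exact (Int.modEq_iff_dvd.2 (by
          have h4 := h1
          rw [← dvd_neg] at h4
          have h5 : -(a + j * d - (((X.getD (x j) 0 : ℕ) : ℤ) + ((X.getD (y j) 0 : ℕ) : ℤ))) =
            (((X.getD (x j) 0 : ℕ) : ℤ) + ((X.getD (y j) 0 : ℕ) : ℤ)) - (a + j * d) := by ring
          rw [h5] at h4
          exact h4))
      have h3 : (s + j * e) ≡ (X.getD (x j) 0 + X.getD (y j) 0) [MOD m] :=
        (Int.natCast_modEq_iff).1 h2
      have h4 : (s + j * e) % m = (X.getD (x j) 0 + X.getD (y j) 0) % m := h3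
      rw [h4]
      exact Nat.mod_eq_of_lt (by omega)
    have h1 : go S m e Wt s 0 = true := by
      rcases hgo s hsm e hem with h2 | h2
      · exact absurd h2 he0
      · exact h2
    have h2 := go_spec S m e Wt s 0 h1 hsm (by
      intro j hj
      rw [hlen] at hj
      rw [hsum j hj]
      exact hS _ (x j).2 _ (y j).2)
    rw [hlen, zero_add] at h2
    refine lt_of_lt_of_eq h2 (Finset.sum_congr rfl (fun j hj => ?_))
    have hj' := Finset.mem_range.1 hj
    rw [hsum j hj']
    exact hW j hj' (x j) (x j).2 (y j) (y j).2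

end Pool.Agent.Lib.MP_56a425_coT
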