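import Mathlib
import Pool.Agent.Lib.MP_56a425_coT.Check

/-!
Explicit weight certificates, checked in the kernel.
-/

set_option autoImplicit false

namespace Pool.Agent.Lib.MP_56a425_coT

/-- Digits, weights, tables for `K = 5`, `m = 53`. -/
def Xa : List ℕ := [0, 1, 5, 7, 8, 22, 25]

def wa : List (List ℤ) :=
  [[2, 5, 0, -5, -2, 1, -1], [2, 2, -4, 4, 4, -8, 0], [-8, -14, 8, 2, -4, 14, 2], [2, 2, -4, 4,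
  4, -8, 0], [2, 5, 0, -5, -2, 1, -1]]

def Wa : List (List ℤ) :=
  [[4, 7, 10, 0, 0, 2, 5, -3, 0, 3, 0, 0, -5, -2, -10, -7, -4, 0, 0, 0, 0, 0, 3, 6, 0, 1, 4, 1,
  0, -4, -1, 0, -6, -3, 0, 0, 0, 0, 0, 0, 0, 0, 0, 0, 2, 0, 0, 0, 0, 0, -2], [4, 4, 4, 0, 0, -2,
  -2, 6, 6, 6, -8, 0, 0, 0, 8, 8, 8, 0, 0, 0, 0, 0, -6, -6, 0, 2, 2, -12, 0, -4, -4, 0, 4, 4, 0,
  0, 0, 0, 0, 0, 0, 0, 0, 0, -16, 0, 0, -8, 0, 0, 0], [-16, -22, -28, 0, 0, 0, -6, -6, -12, -18,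
  16, 0, 10, 4, 4, -2, -8, 0, 0, 0, 0, 0, 6, 0, 0, -6, -12, 22, 0, 16, 10, 0, 4, -2, 0, 0, 0, 0,
  0, 0, 0, 0, 0, 0, 28, 0, 0, 16, 0, 0, 4], [4, 4, 4, 0, 0, -2, -2, 6, 6, 6, -8, 0, 0, 0, 8, 8,
  8, 0, 0, 0, 0, 0, -6, -6, 0, 2, 2, -12, 0, -4, -4, 0, 4, 4, 0, 0, 0, 0, 0, 0, 0, 0, 0, 0, -16,
  0, 0, -8, 0, 0, 0], [4, 7, 10, 0, 0, 2, 5, -3, 0, 3, 0, 0, -5, -2, -10, -7, -4, 0, 0, 0, 0, 0,
  3, 6, 0, 1, 4, 1, 0, -4, -1, 0, -6, -3, 0, 0, 0, 0, 0, 0, 0, 0, 0, 0, 2, 0, 0, 0, 0, 0, -2]]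

def Sa : List Bool :=
  [true, true, true, false, false, true, true, true, true, true, true, false, true, true, true,
  true, true, false, false, false, false, false, true, true, false, true, true, true, false,
  true, true, false, true, true, false, false, false, false, false, false, false, false, false,
  false, true, false, false, true, false, false, true]

theorem checka : check 5 53 7 Xa wa Wa Sa = true := by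
  decide +kernel

/-- Digits, weights, tables for `K = 7`, `m = 11`. -/
def Xb : List ℕ := [0, 1, 2, 5]

def wb : List (List ℤ) :=
  [[-2, 0, 2, 1], [2, 0, -2, 2], [0, 0, 0, -2], [0, 0, 0, -2], [0, 0, 0, -2], [2, 0, -2, 2],
  [-2, 0, 2, 1]]

def Wb : List (List ℤ) :=
  [[-4, -2, 0, 2, 4, -1, 1, 3, 0, 0, 2], [4, 2, 0, -2, -4, 4, 2, 0, 0, 0, 4], [0, 0, 0, 0, 0,
  -2, -2, -2, 0, 0, -4], [0, 0, 0, 0, 0, -2, -2, -2, 0, 0, -4], [0, 0, 0, 0, 0, -2, -2, -2, 0,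
  0, -4], [4, 2, 0, -2, -4, 4, 2, 0, 0, 0, 4], [-4, -2, 0, 2, 4, -1, 1, 3, 0, 0, 2]]

def Sb : List Bool :=
  [true, true, true, true, true, true, true, true, false, false, true]

theorem checkb : check 7 11 4 Xb wb Wb Sb = true := by
  decide +kernel

/-- Digits, weights, tables for `K = 8`, `m = 49`. -/
def Xc : List ℕ := [0, 1, 2, 7, 8, 9, 14, 15, 16, 20]

def wc : List (List ℤ) :=
  [[-7, -6, -5, -4, -3, -2, -1, 0, 1, 1], [0, 2, 4, -1, 1, 3, -2, 0, 2, -5], [3, 3, 3, 2, 2, 2,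
  1, 1, 1, 0], [4, 1, -2, 3, 0, -3, 2, -1, -4, 4], [4, 1, -2, 3, 0, -3, 2, -1, -4, 4], [3, 3, 3,
  2, 2, 2, 1, 1, 1, 0], [0, 2, 4, -1, 1, 3, -2, 0, 2, -5], [-7, -6, -5, -4, -3, -2, -1, 0, 1,
  1]]

def Wc : List (List ℤ) :=
  [[-14, -13, -12, -11, -10, 0, 0, -11, -10, -9, -8, -7, 0, 0, -8, -7, -6, -5, -4, 0, -6, -5,
  -4, -3, -2, -1, 0, -3, -2, -1, 0, 1, 2, 0, 0, 1, 2, 0, 0, 0, 2], [0, 2, 4, 6, 8, 0, 0, -1, 1,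
  3, 5, 7, 0, 0, -2, 0, 2, 4, 6, 0, -5, -3, -1, 1, 3, 5, 0, -6, -4, -2, 0, 2, 4, 0, -7, -5, -3,
  0, 0, 0, -10], [6, 6, 6, 6, 6, 0, 0, 5, 5, 5, 5, 5, 0, 0, 4, 4, 4, 4, 4, 0, 3, 3, 3, 3, 3, 3,
  0, 2, 2, 2, 2, 2, 2, 0, 1, 1, 1, 0, 0, 0, 0], [8, 5, 2, -1, -4, 0, 0, 7, 4, 1, -2, -5, 0, 0,
  6, 3, 0, -3, -6, 0, 8, 5, 2, -1, -4, -7, 0, 7, 4, 1, -2, -5, -8, 0, 6, 3, 0, 0, 0, 0, 8], [8,
  5, 2, -1, -4, 0, 0, 7, 4, 1, -2, -5, 0, 0, 6, 3, 0, -3, -6, 0, 8, 5, 2, -1, -4, -7, 0, 7, 4,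
  1, -2, -5, -8, 0, 6, 3, 0, 0, 0, 0, 8], [6, 6, 6, 6, 6, 0, 0, 5, 5, 5, 5, 5, 0, 0, 4, 4, 4, 4,
  4, 0, 3, 3, 3, 3, 3, 3, 0, 2, 2, 2, 2, 2, 2, 0, 1, 1, 1, 0, 0, 0, 0], [0, 2, 4, 6, 8, 0, 0,
  -1, 1, 3, 5, 7, 0, 0, -2, 0, 2, 4, 6, 0, -5, -3, -1, 1, 3, 5, 0, -6, -4, -2, 0, 2, 4, 0, -7,
  -5, -3, 0, 0, 0, -10], [-14, -13, -12, -11, -10, 0, 0, -11, -10, -9, -8, -7, 0, 0, -8, -7, -6,
  -5, -4, 0, -6, -5, -4, -3, -2, -1, 0, -3, -2, -1, 0, 1, 2, 0, 0, 1, 2, 0, 0, 0, 2]]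

def Sc : List Bool :=
  [true, true, true, true, true, false, false, true, true, true, true, true, false, false, true,
  true, true, true, true, false, true, true, true, true, true, true, false, true, true, true,
  true, true, true, false, true, true, true, false, false, false, true]

theorem checkc : check 8 49 10 Xc wc Wc Sc = true := by
  decide +kernel

/-- Digits, weights, tables for `K = 9`, `m = 67`. -/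
def Xd : List ℕ := [0, 2, 3, 5, 7, 10, 12, 14, 17, 19, 21, 24, 26]

def wd : List (List ℤ) :=
  [[-11, -13, -5, -7, -9, -3, -5, -7, -1, -3, -5, 1, -1], [8, 10, 2, 4, 6, 0, 2, 4, -2, 0, 2,
  -4, -2], [2, 4, -2, 0, 2, -2, 0, 2, -2, 0, 2, -2, 0], [-2, -2, 0, 0, 0, 2, 2, 2, 4, 4, 4, 6,
  6], [6, 2, 10, 6, 2, 6, 2, -2, 2, -2, -6, -2, -6], [-2, -2, 0, 0, 0, 2, 2, 2, 4, 4, 4, 6, 6],
  [2, 4, -2, 0, 2, -2, 0, 2, -2, 0, 2, -2, 0], [8, 10, 2, 4, 6, 0, 2, 4, -2, 0, 2, -4, -2],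
  [-11, -13, -5, -7, -9, -3, -5, -7, -1, -3, -5, 1, -1]]

def Wd : List (List ℤ) :=
  [[-22, 0, -24, -16, -26, -18, -10, -20, -12, -22, -14, 0, -16, -8, -18, -10, -20, -12, 0, -14,
  -6, -16, -8, -18, -10, 0, -12, -4, -14, -6, 0, -8, 0, -10, -2, -12, -4, 0, -6, 0, -8, 0, -10,
  -2, 0, -4, 0, -6, 2, 0, 0, 0, -2], [16, 0, 18, 10, 20, 12, 4, 14, 6, 16, 8, 0, 10, 2, 12, 4,
  14, 6, 0, 8, 0, 10, 2, 12, 4, 0, 6, -2, 8, 0, 0, 2, 0, 4, -4, 6, -2, 0, 0, 0, 2, -6, 4, -4, 0,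
  -2, 0, 0, -8, 0, -6, 0, -4], [4, 0, 6, 0, 8, 2, -4, 4, -2, 6, 0, 0, 2, -4, 4, -2, 6, 0, 0, 2,
  -4, 4, -2, 6, 0, 0, 2, -4, 4, -2, 0, 0, 0, 2, -4, 4, -2, 0, 0, 0, 2, -4, 4, -2, 0, 0, 0, 2,
  -4, 0, -2, 0, 0], [-4, 0, -4, -2, -4, -2, 0, -2, 0, -2, 0, 0, 0, 2, 0, 2, 0, 2, 0, 2, 4, 2, 4,
  2, 4, 0, 4, 6, 4, 6, 0, 6, 0, 6, 8, 6, 8, 0, 8, 0, 8, 10, 8, 10, 0, 10, 0, 10, 12, 0, 12, 0,
  12], [12, 0, 8, 16, 4, 12, 20, 8, 16, 4, 12, 0, 8, 16, 4, 12, 0, 8, 0, 4, 12, 0, 8, -4, 4, 0,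
  0, 8, -4, 4, 0, 0, 0, -4, 4, -8, 0, 0, -4, 0, -8, 0, -12, -4, 0, -8, 0, -12, -4, 0, -8, 0,
  -12], [-4, 0, -4, -2, -4, -2, 0, -2, 0, -2, 0, 0, 0, 2, 0, 2, 0, 2, 0, 2, 4, 2, 4, 2, 4, 0, 4,
  6, 4, 6, 0, 6, 0, 6, 8, 6, 8, 0, 8, 0, 8, 10, 8, 10, 0, 10, 0, 10, 12, 0, 12, 0, 12], [4, 0,
  6, 0, 8, 2, -4, 4, -2, 6, 0, 0, 2, -4, 4, -2, 6, 0, 0, 2, -4, 4, -2, 6, 0, 0, 2, -4, 4, -2, 0,
  0, 0, 2, -4, 4, -2, 0, 0, 0, 2, -4, 4, -2, 0, 0, 0, 2, -4, 0, -2, 0, 0], [16, 0, 18, 10, 20,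
  12, 4, 14, 6, 16, 8, 0, 10, 2, 12, 4, 14, 6, 0, 8, 0, 10, 2, 12, 4, 0, 6, -2, 8, 0, 0, 2, 0,
  4, -4, 6, -2, 0, 0, 0, 2, -6, 4, -4, 0, -2, 0, 0, -8, 0, -6, 0, -4], [-22, 0, -24, -16, -26,
  -18, -10, -20, -12, -22, -14, 0, -16, -8, -18, -10, -20, -12, 0, -14, -6, -16, -8, -18, -10,
  0, -12, -4, -14, -6, 0, -8, 0, -10, -2, -12, -4, 0, -6, 0, -8, 0, -10, -2, 0, -4, 0, -6, 2, 0,
  0, 0, -2]]

def Sd : List Bool :=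
  [true, false, true, true, true, true, true, true, true, true, true, false, true, true, true,
  true, true, true, false, true, true, true, true, true, true, false, true, true, true, true,
  false, true, false, true, true, true, true, false, true, false, true, true, true, true, false,
  true, false, true, true, false, true, false, true]

theorem checkd : check 9 67 13 Xd wd Wd Sd = true := by
  decide +kernel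

end Pool.Agent.Lib.MP_56a425_coT
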